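import Pool.Graph.R_pool_sql_team_seeded_3dad9d7b.NH43.Q.Core
import Pool.Graph.R_seed8.Y258.SD.CStmts

set_option autoImplicit false

/-!
# The three dimensional random array nets as flags
-/

namespace Pool.Agent.KS6_54.SQ

open Finset Pool.Agent.H470D4 Pool.Agent.Y258
open Pool.Agent.H935R2.PS (plane_cnt line_cnt)
open Pool.Agent.H935R2.PS (dg Tot net_unique)
open Pool.Agent.H935R2.PS.KD (SS dn dn_lt box SS_real)

section flags
variable {q M B n : ℕ} [Fact q.Prime]

/-- a criterion for exactness -/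
theorem isFlags_of (c : Flg q M B n) (h0 : ∀ (l : Fin (M * B)) (ν : Vec q M B), c 0 l ν = ν l)
    (h : ∀ m : Fin (n + 2) → ℕ, ∑ a, m a = M * B → ∀ ν : Vec q M B,
      (∀ a, ∀ j < m a, c a j ν = 0) → ν = 0) : IsFlags c := by
  classical
  refine ⟨h0, fun ω W => ?_⟩
  have hbot : ∀ m : Fin (n + 2) → ℕ, ∑ a, m a = M * B → Module.finrank (ZMod q) (AA c ω m 0) = 0 := by
    intro m hm
    have : AA c ω m 0 = ⊥ := by
      rw [eq_bot_iff]
      intro ν hν
      rw [mem_AA] at hν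
      rw [Submodule.mem_bot]
      exact h m hm ν hν.1
    rw [this, finrank_bot]
  have htop : Module.finrank (ZMod q) (AA c ω (fun _ => 0) 0) = M * B := by
    have : AA c ω (fun _ => 0) 0 = ⊤ := by
      rw [eq_top_iff]
      intro ν _
      rw [mem_AA]
      exact ⟨fun a j hj => absurd hj (Nat.not_lt_zero j), fun j hj => absurd hj (Nat.not_lt_zero j)⟩
    rw [this, finrank_top, Module.finrank_fin_fun]
  have hge := finrank_AA_le c ω (W := W) (W' := fun _ => 0) 0 (fun a => Nat.zero_le _)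
  rw [htop] at hge
  simp only [sum_const_zero, add_zero] at hge
  rcases le_total (∑ a, W a) (M * B) with hW | hW
  · -- extend `W`
    have h1 := finrank_AA_le c ω (W := Function.update W 0 (W 0 + (M * B - ∑ a, W a))) (W' := W) 0
      (fun a => by
        by_cases ha : a = 0
        · subst ha; simp
        · rw [Function.update_of_ne ha])
    have h2 : ∑ a, Function.update W 0 (W 0 + (M * B - ∑ a, W a)) a = M * B := by
      rw [Finset.sum_update_of_mem (mem_univ _)]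
      have h3 := Finset.add_sum_erase univ W (mem_univ (0 : Fin (n + 2)))
      rw [Finset.sdiff_singleton_eq_erase]
      omega
    rw [hbot _ h2, h2] at h1
    omega
  · obtain ⟨W', hW', hs⟩ := exists_le_sumW W hW
    have h1 : AA c ω W 0 ≤ AA c ω W' 0 := AA_mono c ω hW' le_rfl
    have h2 := Submodule.finrank_mono h1
    rw [hbot W' hs] at h2
    omega

end flags

section three
variable {q : ℕ} [Fact q.Prime]

/-- the digit functionals -/
noncomputable def dgL (n : ℕ) (a : ℕ → ℕ → ZMod q) (l : Fin 3) (k : ℕ) :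
    (Fin n → ZMod q) →ₗ[ZMod q] ZMod q :=
  AddMonoidHom.toZModLinearMap q (AddMonoidHom.ofMapSub (fun u => dg n a (Pool.Agent.H935R2.PS.ex u) l k)
    (fun u v => Pool.Agent.H935R2.PS.TaskKA.dg_sub a u v l k))

theorem dgL_apply (n : ℕ) (a : ℕ → ℕ → ZMod q) (l : Fin 3) (k : ℕ) (u : Fin n → ZMod q) :
    dgL n a l k u = dg n a (Pool.Agent.H935R2.PS.ex u) l k := rfl

/-- the flags of an array -/
noncomputable def c3 (M B : ℕ) (a : ℕ → ℕ → ZMod q) : Flg q M B 1 :=
  fun l j => dgL (M * B) a l (j + 1)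

theorem c3_flags (M B : ℕ) (a : ℕ → ℕ → ZMod q) (ha : ∀ r j, a r j ≠ 0) :
    IsFlags (c3 M B a) := by
  refine isFlags_of _ ?_ ?_
  · intro l ν
    show dg (M * B) a (Pool.Agent.H935R2.PS.ex ν) 0 (l + 1) = ν l
    rw [dg, if_pos rfl]
    exact Pool.Agent.H935R2.PS.TaskKA.ex_apply ν l
  · intro m hm ν hν
    have hm' : m 0 + m 1 + m 2 = M * B := by
      rw [← hm]
      exact (Fin.sum_univ_three m).symm
    obtain ⟨u, _, hu⟩ := net_unique (M * B) a ha m hm' (fun _ _ => 0)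
    have h1 : ν = u := hu ν (fun l k hk => by
      rw [mem_Icc] at hk
      have := hν l (k - 1) (by omega)
      have e : k - 1 + 1 = k := by omega
      rw [c3, e] at this
      exact this)
    have h2 : (0 : Fin (M * B) → ZMod q) = u := hu 0 (fun l k hk => by
      have := map_zero (dgL (M * B) a l k)
      exact this)
    rw [h1, ← h2]

theorem tv_SS (d : ℕ → ZMod q) (n : ℕ) :
    tv d n = (SS q (fun k => (d (k - 1)).val) n : ℝ) / (q:ℝ) ^ n := by
  have hq0 : 0 < q := (Fact.out : q.Prime).pos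
  rw [SS_real hq0, tv_eq_sum]
  rw [Finset.range_eq_Ico]
  have h := Finset.sum_Ico_add' (fun k => ((d (k - 1)).val : ℝ) / (q:ℝ) ^ k) 0 n 1
  simp only [Nat.add_sub_cancel, zero_add] at h
  rw [h]
  rfl

theorem c3_GB (M B : ℕ) (hMB : 1 ≤ M * B) (a : ℕ → ℕ → ZMod q) (ha : ∀ r j, a r j ≠ 0) (E : ℝ)
    (hE : ∀ (D0 z : ℕ → ZMod q) (t1 t2 t3 : ℕ → ℕ), (∀ i, t1 i < q) → (∀ i, t2 i < q) →
      (∀ i, t3 i < q) → |Tot (M * B) a D0 z t1 t2 t3| ≤ E) :
    GB (c3 M B a) (E + 2 * ((M * B : ℕ) : ℝ) ^ 2) := by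
  classical
  intro X
  have hq0 : 0 < q := (Fact.out : q.Prime).pos
  have hqn : (0:ℝ) < (q:ℝ) ^ (M * B) := by
    have : (0:ℝ) < q := by exact_mod_cast hq0
    positivity
  have hP : Pool.Agent.H935R2.PS.KD.PlaneCnt (M * B) a :=
    fun T hT r j h1 h2 h3 => Pool.Agent.H935R2.PS.plane_cnt (M * B) a ha T hT r j h1 h2 h3
  have hL : Pool.Agent.H935R2.PS.KD.LineCnt (M * B) a :=
    fun T hT r j h1 h2 => Pool.Agent.H935R2.PS.line_cnt (M * B) a ha T hT r j h1 h2
  have hb := box (M * B) hMB a ha hP hL E hE (fun l k => (X l (k - 1)).val)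
    (fun l k => ZMod.val_lt _)
  have e1 : ∀ l, tv (X l) (M * B) =
      (SS q (fun k => (X l (k - 1)).val) (M * B) : ℝ) / (q:ℝ) ^ (M * B) := fun l => tv_SS _ _
  have e2 : ∀ (ν : Vec q M B) (l : Fin 3), tv (fun j => c3 M B a l j ν) (M * B) =
      (SS q (dn (M * B) a ν l) (M * B) : ℝ) / (q:ℝ) ^ (M * B) := by
    intro ν l
    rw [tv_SS]
    congr 2
    refine Pool.Agent.H935R2.PS.KD.SS_congr _ _ _ fun k hk => ?_
    rw [mem_Icc] at hk
    show (dg (M * B) a (Pool.Agent.H935R2.PS.ex ν) l (k - 1 + 1)).val = (dg (M * B) a (Pool.Agent.H935R2.PS.ex ν) l k).val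
    rw [show k - 1 + 1 = k by omega]
  have e3 : ∑ ν : Vec q M B, ii (∀ l, tv (fun j => c3 M B a l j ν) (M * B) < tv (X l) (M * B)) =
      (((univ : Finset (Fin (M * B) → ZMod q)).filter (fun u => ∀ l, SS q (dn (M * B) a u l) (M * B) <
        SS q ((fun l k => (X l (k - 1)).val : Fin 3 → ℕ → ℕ) l) (M * B))).card : ℝ) := by
    rw [card_eq_sum_ii]
    refine sum_congr rfl fun ν _ => ?_
    apply ii_congr
    refine forall_congr' fun l => ?_
    rw [e1 l, e2 ν l, div_lt_div_iff_of_pos_right hqn]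
    exact_mod_cast Iff.rfl
  rw [e3]
  have e4 : ∏ l, tv (X l) (M * B) =
      ∏ l, ((SS q ((fun l k => (X l (k - 1)).val : Fin 3 → ℕ → ℕ) l) (M * B) : ℝ) / (q:ℝ) ^ (M * B)) :=
    prod_congr rfl fun l _ => e1 l
  rw [e4]
  exact hb

end three

end Pool.Agent.KS6_54.SQ
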