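import Pool.Graph.R_seed8.H739R3.SQ.D

set_option autoImplicit false

/-!
# Gluing in infinitely many coordinates
-/

namespace Pool.Agent.KS6_54.SQ

open Finset H739SQ

/-- the first `d` coordinates of a sequence in `[0,1)^ℕ` -/
def pr (z : ℕ → ℕ → ℝ) (d : ℕ) : ℕ → Fin d → ℝ := fun n j => z n j

open Classical in
/-- **Sorting by the first coordinate.** -/
theorem sorted_exp {d M : ℕ} {Δ : ℝ} (ξ : Fin M → Fin (d + 1) → ℝ)
    (hξ : ∀ i j, 0 ≤ ξ i j ∧ ξ i j < 1)
    (h : ∀ x : Fin (d + 1) → ℝ, (∀ j, 0 ≤ x j) → (∀ j, x j ≤ 1) →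
      |(((univ : Finset (Fin M)).filter (fun i => ∀ j, ξ i j < x j)).card : ℝ)
        - M * ∏ j, x j| ≤ Δ) (σ : Equiv.Perm (Fin M))
    (hmono : Monotone ((fun i => ξ i 0) ∘ σ)) (z : ℕ → Fin d → ℝ)
    (hz' : ∀ (k : ℕ) (hk : k < M) (j : Fin d), z k j = ξ (σ ⟨k, hk⟩) j.succ) :
    ∀ N ≤ M, SB z N (2 * Δ) := by
  have hΔ : 0 ≤ Δ := (abs_nonneg _).trans (h (fun _ => 0) (fun _ => le_rfl) (fun _ => zero_le_one))
  -- the three dimensional count
  set F : ℝ → (Fin d → ℝ) → ℕ := fun t y =>
    ((univ : Finset (Fin M)).filter (fun i => ξ i 0 < t ∧ ∀ j : Fin d, ξ i j.succ < y j)).card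
    with hF
  have hFb : ∀ (t : ℝ) (y : Fin d → ℝ), 0 ≤ t → t ≤ 1 → (∀ j, 0 ≤ y j) → (∀ j, y j ≤ 1) →
      |(F t y : ℝ) - M * (t * ∏ j, y j)| ≤ Δ := by
    intro t y ht0 ht1 hy0 hy1
    have h1 := h (Fin.cons t y) (by
      intro j
      refine Fin.cases ?_ ?_ j
      · simpa using ht0
      · intro i; simpa using hy0 i) (by
      intro j
      refine Fin.cases ?_ ?_ j
      · simpa using ht1
      · intro i; simpa using hy1 i)
    rw [Fin.prod_univ_succ] at h1
    simp only [Fin.cons_zero, Fin.cons_succ] at h1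
    have h2 : (univ : Finset (Fin M)).filter
        (fun i => ∀ j, ξ i j < (Fin.cons t y : Fin (d + 1) → ℝ) j) =
        (univ : Finset (Fin M)).filter (fun i => ξ i 0 < t ∧ ∀ j : Fin d, ξ i j.succ < y j) := by
      apply filter_congr
      intro i _
      rw [Fin.forall_fin_succ]
      simp only [Fin.cons_zero, Fin.cons_succ]
    rw [h2] at h1
    exact h1
  have hcn : ∀ (N : ℕ) (y : Fin d → ℝ),
      cn z N y = (((range N).filter (fun k => ∀ j, z k j < y j)).card : ℝ) := by
    intro N y
    unfold cn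
    rw [card_filter]
    push_cast
    exact sum_congr rfl fun k _ => by congr
  -- lower and upper comparison
  have hlow : ∀ (N : ℕ) (hN : N < M) (y : Fin d → ℝ),
      F (ξ (σ ⟨N, hN⟩) 0) y ≤ ((range N).filter (fun k => ∀ j, z k j < y j)).card := by
    intro N hN y
    rw [hF]
    refine card_le_card_of_injOn (fun i => ((σ.symm i : Fin M) : ℕ)) ?_ ?_
    · intro i hi
      simp only [coe_filter, mem_univ, true_and, Set.mem_setOf_eq] at hi
      simp only [coe_filter, mem_range, Set.mem_setOf_eq]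
      have h1 : ((σ.symm i : Fin M) : ℕ) < N := by
        by_contra hcon
        push Not at hcon
        have h2 : (⟨N, hN⟩ : Fin M) ≤ σ.symm i := hcon
        have h3 := hmono h2
        simp only [Function.comp, Equiv.apply_symm_apply] at h3
        linarith [hi.1]
      refine ⟨h1, fun j => ?_⟩
      rw [hz' _ (σ.symm i).2 j]
      have : σ ⟨((σ.symm i : Fin M) : ℕ), (σ.symm i).2⟩ = i := by
        simp
      rw [this]
      exact hi.2 j
    · intro i _ i' _ hii
      have : σ.symm i = σ.symm i' := Fin.ext hii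
      exact σ.symm.injective this
  have hup : ∀ (N : ℕ) (hN : N ≤ M) (t : ℝ) (_ : ∀ k (hk : k < M), k < N → ξ (σ ⟨k, hk⟩) 0 < t)
      (y : Fin d → ℝ), ((range N).filter (fun k => ∀ j, z k j < y j)).card ≤ F t y := by
    intro N hN t ht y
    rcases Nat.eq_zero_or_pos M with hM | hM
    · have : N = 0 := by omega
      subst this
      simp
    rw [hF]
    refine card_le_card_of_injOn (fun k => if hk : k < M then σ ⟨k, hk⟩ else σ ⟨0, hM⟩) ?_ ?_
    · intro k hk
      simp only [coe_filter, mem_range, Set.mem_setOf_eq] at hk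
      have hkM : k < M := lt_of_lt_of_le hk.1 hN
      simp only [coe_filter, mem_univ, true_and, Set.mem_setOf_eq, dif_pos hkM]
      refine ⟨ht k hkM hk.1, fun j => ?_⟩
      have := hk.2 j
      rwa [hz' k hkM j] at this
    · intro k hk k' hk' hkk
      simp only [coe_filter, mem_range, Set.mem_setOf_eq] at hk hk'
      have hkM : k < M := lt_of_lt_of_le hk.1 hN
      have hkM' : k' < M := lt_of_lt_of_le hk'.1 hN
      simp only [dif_pos hkM, dif_pos hkM'] at hkk
      have := σ.injective hkk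
      exact Fin.mk.inj_iff.1 this
  · intro N hN y hy0 hy1
    set A := ((range N).filter (fun k => ∀ j, z k j < y j)).card with hA
    set P := ∏ j, y j with hP
    have hP0 : 0 ≤ P := prod_nonneg fun j _ => hy0 j
    have hP1 : P ≤ 1 := prod_le_one (fun j _ => hy0 j) fun j _ => hy1 j
    rw [hcn, ← hA]
    rcases Nat.lt_or_ge N M with hNM | hNM
    · set t := ξ (σ ⟨N, hNM⟩) 0 with ht
      have ht0 : 0 ≤ t := (hξ _ _).1
      have ht1 : t < 1 := (hξ _ _).2
      -- every `t' > t` works for the upper bound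
      have key : ∀ (y : Fin d → ℝ), (∀ j, 0 ≤ y j) → (∀ j, y j ≤ 1) →
          |(((range N).filter (fun k => ∀ j, z k j < y j)).card : ℝ) - M * (t * ∏ j, y j)| ≤ Δ := by
        intro y hy0 hy1
        have hQ0 : 0 ≤ ∏ j, y j := prod_nonneg fun j _ => hy0 j
        have hQ1 : ∏ j, y j ≤ 1 := prod_le_one (fun j _ => hy0 j) fun j _ => hy1 j
        have h1 := hFb t y ht0 ht1.le hy0 hy1
        have h2 : (F t y : ℝ) ≤ (((range N).filter (fun k => ∀ j, z k j < y j)).card : ℝ) := by
          exact_mod_cast hlow N hNM y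
        rw [abs_le] at h1 ⊢
        constructor
        · linarith [h1.1]
        · apply le_of_forall_pos_le_add
          intro ε hε
          obtain ⟨δ, hδ0, hδ1, hδε⟩ : ∃ δ : ℝ, 0 < δ ∧ δ ≤ 1 - t ∧ M * δ ≤ ε := by
            refine ⟨min (1 - t) (ε / (M + 1)), lt_min (by linarith) (by positivity),
              min_le_left _ _, ?_⟩
            have hM0 : (0:ℝ) ≤ M := Nat.cast_nonneg M
            calc (M:ℝ) * min (1 - t) (ε / (M + 1)) ≤ M * (ε / (M + 1)) :=
                  mul_le_mul_of_nonneg_left (min_le_right _ _) hM0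
              _ ≤ (M + 1) * (ε / (M + 1)) := by
                  apply mul_le_mul_of_nonneg_right (by linarith) (by positivity)
              _ = ε := by field_simp
          have h3 := hup N hN (t + δ) (by
            intro k hk hkN
            have h4 : (⟨k, hk⟩ : Fin M) ≤ ⟨N, hNM⟩ := by
              rw [Fin.mk_le_mk]; omega
            have h5 := hmono h4
            simp only [Function.comp] at h5
            linarith) y
          have h3' : ((((range N).filter (fun k => ∀ j, z k j < y j)).card : ℕ) : ℝ) ≤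
              F (t + δ) y := by exact_mod_cast h3
          have h6 := (abs_le.1 (hFb (t + δ) y (by linarith) (by linarith) hy0 hy1)).2
          have h7 : (M:ℝ) * ((t + δ) * ∏ j, y j) ≤ M * (t * ∏ j, y j) + ε := by
            have : (M:ℝ) * δ * ∏ j, y j ≤ ε * 1 :=
              mul_le_mul hδε hQ1 hQ0 hε.le
            nlinarith
          linarith
      have k1 := key y hy0 hy1
      have k2 := key (fun _ => 1) (fun _ => zero_le_one) (fun _ => le_rfl)
      have h8 : (range N).filter (fun k => ∀ j, z k j < (fun _ : Fin d => (1:ℝ)) j) = range N := by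
        apply filter_true_of_mem
        intro k hk j
        rw [mem_range] at hk
        rw [hz' k (by omega) j]
        exact (hξ _ _).2
      rw [h8, card_range, prod_const_one, mul_one] at k2
      rw [← hA, ← hP] at k1
      have e : (A:ℝ) - N * P = ((A:ℝ) - M * (t * P)) - ((N:ℝ) - M * t) * P := by ring
      rw [e]
      calc |((A:ℝ) - M * (t * P)) - ((N:ℝ) - M * t) * P| ≤
            |(A:ℝ) - M * (t * P)| + |((N:ℝ) - M * t) * P| := abs_sub _ _
        _ ≤ Δ + Δ * 1 := by
            refine add_le_add k1 ?_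
            rw [abs_mul, abs_of_nonneg hP0]
            exact mul_le_mul k2 hP1 hP0 hΔ
        _ = 2 * Δ := by ring
    · obtain rfl : N = M := le_antisymm hN hNM
      have h1 := hup N le_rfl 1 (fun k hk _ => (hξ _ _).2) y
      have h2 : F 1 y ≤ A := by
        rw [hF, hA]
        refine card_le_card_of_injOn (fun i => ((σ.symm i : Fin N) : ℕ)) ?_ ?_
        · intro i hi
          simp only [coe_filter, mem_univ, true_and, Set.mem_setOf_eq] at hi
          simp only [coe_filter, mem_range, Set.mem_setOf_eq]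
          refine ⟨(σ.symm i).2, fun j => ?_⟩
          rw [hz' _ (σ.symm i).2 j]
          have : σ ⟨((σ.symm i : Fin N) : ℕ), (σ.symm i).2⟩ = i := by
            simp
          rw [this]
          exact hi.2 j
        · intro i _ i' _ hii
          have : σ.symm i = σ.symm i' := Fin.ext hii
          exact σ.symm.injective this
      have h3 : A = F 1 y := le_antisymm h1 h2
      have h4 := hFb 1 y zero_le_one le_rfl hy0 hy1
      rw [one_mul, ← hP, ← h3] at h4
      linarith


open Classical in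
/-- sorting a finite set of points of `[0,1)^ℕ` by the coordinate `0` -/
theorem sorted_inf {M : ℕ} (ξ : Fin M → ℕ → ℝ) (hξ : ∀ i j, 0 ≤ ξ i j ∧ ξ i j < 1) :
    ∃ z : ℕ → ℕ → ℝ, (∀ k j, 0 ≤ z k j ∧ z k j < 1) ∧ ∀ (d : ℕ) (Δ : ℝ),
      (∀ x : Fin (d + 1) → ℝ, (∀ j, 0 ≤ x j) → (∀ j, x j ≤ 1) →
        |(((univ : Finset (Fin M)).filter (fun i => ∀ j : Fin (d + 1), ξ i j < x j)).card : ℝ)
          - M * ∏ j, x j| ≤ Δ) → ∀ N ≤ M, SB (pr z d) N (2 * Δ) := by
  refine ⟨fun k j => if h : k < M then ξ (Tuple.sort (fun i => ξ i 0) ⟨k, h⟩) (j + 1) else 0,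
    ?_, ?_⟩
  · intro k j
    by_cases hk : k < M
    · simp only [dif_pos hk]; exact hξ _ _
    · simp only [dif_neg hk]; exact ⟨le_rfl, zero_lt_one⟩
  · intro d Δ h
    refine sorted_exp (fun i (j : Fin (d + 1)) => ξ i j) (fun i j => hξ _ _) h
      (Tuple.sort (fun i => ξ i 0)) (Tuple.monotone_sort _) _ ?_
    intro k hk j
    simp only [pr, dif_pos hk, Fin.val_succ]

/-- **Concatenation.** -/
theorem concat_inf (L : ℕ → ℕ) (hL : ∀ k, 0 < L k) (w : ℕ → ℕ → ℕ → ℝ)
    (hw : ∀ k n j, 0 ≤ w k n j ∧ w k n j < 1) :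
    ∃ z : ℕ → ℕ → ℝ, (∀ n j, 0 ≤ z n j ∧ z n j < 1) ∧
      ∀ (d : ℕ) (E : ℕ → ℝ), (∀ k, ∀ N ≤ L k, SB (pr (w k) d) N (E k)) →
      ∀ k N, (∑ j ∈ range k, L j) ≤ N → N ≤ (∑ j ∈ range (k + 1), L j) →
        SB (pr z d) N (∑ j ∈ range (k + 1), E j) := by
  classical
  set S : ℕ → ℕ := fun k => ∑ j ∈ range k, L j with hS
  have hSs : ∀ k, S (k + 1) = S k + L k := fun k => sum_range_succ _ _
  have hSge : ∀ k, k ≤ S k := by
    intro k
    induction k with
    | zero => exact Nat.zero_le _
    | succ k ih => rw [hSs]; have := hL k; omega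
  have hex : ∀ n, ∃ k, n < S (k + 1) := fun n => ⟨n, by
    have := hSge (n + 1); omega⟩
  have hSmono : Monotone S := monotone_nat_of_le_succ fun k => by rw [hSs]; omega
  set b : ℕ → ℕ := fun n => Nat.find (hex n) with hb
  have hb1 : ∀ n, n < S (b n + 1) := fun n => Nat.find_spec (hex n)
  have hb2 : ∀ n, S (b n) ≤ n := by
    intro n
    rcases Nat.eq_zero_or_pos (b n) with h0 | h0
    · rw [h0]; simp [hS]
    · obtain ⟨m, hm⟩ : ∃ m, b n = m + 1 := ⟨b n - 1, by omega⟩
      have := Nat.find_min (hex n) (m := m) (by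
        have : Nat.find (hex n) = b n := rfl
        omega)
      rw [hm]; omega
  have hbk : ∀ k i, i < L k → b (S k + i) = k := by
    intro k i hi
    have h1 := hb1 (S k + i)
    have h2 := hb2 (S k + i)
    by_contra hne
    rcases Nat.lt_or_gt_of_ne hne with hlt | hgt
    · have := hSmono (show b (S k + i) + 1 ≤ k by omega)
      omega
    · have := hSmono (show k + 1 ≤ b (S k + i) by omega)
      rw [hSs] at this
      omega
  set z : ℕ → ℕ → ℝ := fun n => w (b n) (n - S (b n)) with hz
  have hzk : ∀ k i, i < L k → z (S k + i) = w k i := by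
    intro k i hi
    rw [hz]
    simp only
    rw [hbk k i hi, Nat.add_sub_cancel_left]
  refine ⟨z, fun n j => hw _ _ _, ?_⟩
  intro d E hwE
  have main : ∀ k r, r ≤ L k → SB (pr z d) (S k + r) (∑ j ∈ range (k + 1), E j) := by
    intro k
    induction k with
    | zero =>
      intro r hr y hy0 hy1
      have h0 : S 0 = 0 := by simp [hS]
      rw [h0, zero_add]
      have h1 := hwE 0 r hr y hy0 hy1
      have h2 : cn (pr z d) r y = cn (pr (w 0) d) r y := cn_congr (fun i hi => by
        have := hzk 0 i (by omega)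
        rw [h0, zero_add] at this
        unfold pr
        rw [this]) y
      rw [h2, zero_add, sum_range_one]
      exact h1
    | succ k ih =>
      intro r hr y hy0 hy1
      have h1 := ih (L k) le_rfl y hy0 hy1
      rw [← hSs] at h1
      have h2 := hwE (k + 1) r hr y hy0 hy1
      rw [cn_add, sum_range_succ]
      have h3 : cn (fun i => pr z d (S (k + 1) + i)) r y = cn (pr (w (k + 1)) d) r y :=
        cn_congr (fun i hi => by
          have := hzk (k + 1) i (by omega)
          unfold pr
          rw [this]) y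
      rw [h3]
      push_cast
      have e : cn (pr z d) (S (k + 1)) y + cn (pr (w (k + 1)) d) r y -
          ((S (k + 1) : ℕ) + (r : ℝ)) * ∏ j, y j =
          (cn (pr z d) (S (k + 1)) y - (S (k + 1) : ℕ) * ∏ j, y j) +
            (cn (pr (w (k + 1)) d) r y - (r : ℝ) * ∏ j, y j) := by ring
      rw [e]
      exact (abs_add_le _ _).trans (add_le_add h1 h2)
  intro k N h1 h2
  have h3 := main k (N - S k) (by
    change S k ≤ N at h1
    change N ≤ S (k + 1) at h2
    rw [hSs] at h2
    omega)
  have h4 : S k + (N - S k) = N := Nat.add_sub_cancel' h1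
  rwa [h4] at h3

/-- the trivial bound -/
theorem SB_triv {d : ℕ} (z : ℕ → Fin d → ℝ) (N : ℕ) : SB z N N := by
  classical
  intro y hy0 hy1
  have h2 : (0:ℝ) ≤ ∏ j, y j := prod_nonneg fun j _ => hy0 j
  have h3 : ∏ j, y j ≤ 1 := prod_le_one (fun j _ => hy0 j) fun j _ => hy1 j
  have h4 : cn z N y ≤ N := by
    unfold cn
    calc _ ≤ ∑ _k ∈ range N, (1:ℝ) := sum_le_sum fun k _ => by split_ifs <;> norm_num
      _ = N := by simp
  have h5 : 0 ≤ cn z N y := by
    unfold cn
    exact sum_nonneg fun k _ => by split_ifs <;> norm_num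
  have h6 : (0:ℝ) ≤ N := by positivity
  rw [abs_le]
  constructor <;> nlinarith

end Pool.Agent.KS6_54.SQ
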