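import Pool.Agent.KS6_54.SQ.Glue
import Pool.Graph.R_seed8.Y492.SD.C21

set_option autoImplicit false

/-!
# From nets in infinitely many coordinates to one sequence
-/

namespace Pool.Agent.KS6_54.SQ

open Finset H739SQ Pool.Agent.H470D4 Pool.Agent.Y258
open Pool.Agent.H935R2.PS (La uu)
open Pool.Agent.Y492.SD (real_gb card_filter_eq_sum_ii)

/-- suitable primes at every scale -/
def Dense (Su : ℕ → Prop) : Prop := ∃ l₀ : ℕ, ∀ l : ℕ, l₀ ≤ l →
  ∃ q : ℕ, q.Prime ∧ Su q ∧ l ≤ 2 * La q ∧ La q ≤ l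

/-- nets in infinitely many coordinates -/
def TowerS (Su : ℕ → Prop) (e x : ℕ) : Prop := ∃ K : ℕ → ℕ, ∀ (q : ℕ) [Fact q.Prime], Su q →
    ∃ c : ℕ → ℕ → (Vec q (La q ^ e) 1 →ₗ[ZMod q] ZMod q), ∀ n : ℕ, K n ≤ q →
      IsFlags (n := n + 1) (fun a => c a) ∧
      GB (n := n + 1) (fun a => c a)
        (K n * ((La q : ℝ) ^ ((e + 1) * (n + 2) - x) * (uu q : ℝ) ^ 2))

open Classical in
/-- one block -/
theorem block (q : ℕ) [Fact q.Prime] (e : ℕ)
    (c : ℕ → ℕ → (Vec q (La q ^ e) 1 →ₗ[ZMod q] ZMod q)) :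
    ∃ w : ℕ → ℕ → ℝ, (∀ k j, 0 ≤ w k j ∧ w k j < 1) ∧ ∀ (n : ℕ) (E : ℝ),
      IsFlags (n := n + 1) (fun a => c a) → GB (n := n + 1) (fun a => c a) E →
      ∀ N ≤ q ^ (La q ^ e * 1), SB (pr w (n + 2)) N (2 * (E + (2 * n + 7))) := by
  have hcard : Fintype.card (Vec q (La q ^ e) 1) = q ^ (La q ^ e * 1) := by
    rw [Fintype.card_fun, ZMod.card, Fintype.card_fin]
  let f : Vec q (La q ^ e) 1 ≃ Fin (q ^ (La q ^ e * 1)) := Fintype.equivFinOfCardEq hcard
  obtain ⟨w, hw, h⟩ := sorted_inf (fun i a => tv (fun j => c a j (f.symm i)) (La q ^ e * 1))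
    (fun i a => tv_bounds _ _)
  refine ⟨w, hw, fun n E hc hE => h (n + 2) _ fun x hx0 hx1 => ?_⟩
  have h0 := real_gb (fun a : Fin (n + 1 + 2) => c a) hc E hE x hx0 hx1
  have h1 : (((univ : Finset (Fin (q ^ (La q ^ e * 1)))).filter
      (fun i => ∀ a : Fin (n + 2 + 1), tv (fun j => c a j (f.symm i)) (La q ^ e * 1) < x a)).card : ℝ) =
      ∑ ν : Vec q (La q ^ e) 1,
        ii (∀ a : Fin (n + 1 + 2), tv (fun j => c a j ν) (La q ^ e * 1) < x a) := by
    rw [card_filter_eq_sum_ii]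
    exact Equiv.sum_comp f.symm (fun ν : Vec q (La q ^ e) 1 =>
      ii (∀ a : Fin (n + 1 + 2), tv (fun j => c a j ν) (La q ^ e * 1) < x a))
  rw [h1]
  have e2 : E + (2 * ((n + 1 : ℕ) : ℝ) + 5) = E + (2 * n + 7) := by push_cast; ring
  rw [e2] at h0
  have e3 : (((q ^ (La q ^ e * 1) : ℕ)) : ℝ) = (q:ℝ) ^ (La q ^ e * 1) := by push_cast; rfl
  rw [e3]
  exact h0

theorem one_lt_log3 : 1 < Real.log 3 := by
  rw [Real.lt_log_iff_exp_lt (by norm_num)]
  have h1 := Real.exp_one_lt_d9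
  linarith

theorem natlog_le (a : ℕ) (ha : a ≠ 0) : (Nat.log 2 a : ℝ) ≤ 2 * Real.log a := by
  have h1 : ((2:ℝ) ^ Nat.log 2 a) ≤ a := by exact_mod_cast Nat.pow_log_le_self 2 ha
  have h2 := Real.log_le_log (by positivity) h1
  rw [Real.log_pow] at h2
  have h3 := Real.log_two_gt_d9
  have h4 : (0:ℝ) ≤ Nat.log 2 a := Nat.cast_nonneg _
  nlinarith

theorem log32 : Real.log 32 ≤ 3.5 := by
  have h : (32:ℝ) = 2 ^ 5 := by norm_num
  rw [h, Real.log_pow]
  have := Real.log_two_lt_d9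
  push_cast
  linarith

/-- **One sequence for all dimensions.** -/
theorem seq_of_tower (Su : ℕ → Prop) (hSu : Dense Su) (e x : ℕ) (hx : x ≤ e + 1)
    (hT : TowerS Su e x) :
    ∃ z : ℕ → ℕ → ℝ, (∀ n j, 0 ≤ z n j ∧ z n j < 1) ∧ ∀ d : ℕ, 2 ≤ d → ∃ C : ℝ, 0 < C ∧
      ∀ N : ℕ, 3 ≤ N → SB (pr z d) N (C * (Real.log N) ^ ((d:ℝ) - x / (e + 1)) *
        (Real.log (Real.log N)) ^ 2) := by
  classical
  obtain ⟨l₀, hl₀⟩ := hSu
  obtain ⟨K, hK⟩ := hT
  obtain ⟨l, hl⟩ : ∃ l : ℕ → ℕ, ∀ k, l k = (l₀ + 8) * 8 ^ k := ⟨fun k => (l₀ + 8) * 8 ^ k, fun _ => rfl⟩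
  have hl0 : ∀ k, l₀ ≤ l k := fun k => by
    rw [hl]
    calc l₀ ≤ (l₀ + 8) * 1 := by omega
      _ ≤ (l₀ + 8) * 8 ^ k := Nat.mul_le_mul_left _ (Nat.one_le_pow _ _ (by norm_num))
  have hls : ∀ k, l (k + 1) = 8 * l k := fun k => by rw [hl, hl, pow_succ]; ring
  have hl8 : ∀ k, 8 ≤ l k := fun k => by
    rw [hl]
    calc 8 ≤ (l₀ + 8) * 1 := by omega
      _ ≤ (l₀ + 8) * 8 ^ k := Nat.mul_le_mul_left _ (Nat.one_le_pow _ _ (by norm_num))
  choose q hqp hqs hq1 hq2 using fun k => hl₀ (l k) (hl0 k)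
  obtain ⟨a, ha⟩ : ∃ a : ℕ → ℕ, ∀ k, a k = La (q k) := ⟨fun k => La (q k), fun _ => rfl⟩
  simp only [← ha] at hq1 hq2
  have ha1 : ∀ k, 4 * a k ≤ a (k + 1) := fun k => by
    have h1 := hq1 (k + 1); have h2 := hq2 k; have h3 := hls k; omega
  have ha2 : ∀ k, a (k + 1) ≤ 16 * a k := fun k => by
    have h1 := hq2 (k + 1); have h2 := hq1 k; have h3 := hls k; omega
  have ha4 : ∀ k, 4 ≤ a k := fun k => by have h1 := hq1 k; have h2 := hl8 k; omega
  have hak : ∀ k, k ≤ a k := by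
    intro k
    induction k with
    | zero => exact Nat.zero_le _
    | succ k ih => have h1 := ha1 k; have h2 := ha4 k; omega
  have hqne : ∀ k, q k ≠ 0 := fun k => (hqp k).ne_zero
  have h2a : ∀ k, 2 ^ a k ≤ q k := fun k => by rw [ha]; exact Nat.pow_log_le_self 2 (hqne k)
  have hkq : ∀ k, k ≤ q k := fun k => by
    have h1 := hak k
    have h2 : a k < 2 ^ a k := Nat.lt_two_pow_self
    have h3 := h2a k
    omega
  -- the blocks
  have hblock : ∀ k, ∃ w : ℕ → ℕ → ℝ, (∀ i j, 0 ≤ w i j ∧ w i j < 1) ∧ ∀ n : ℕ, K n ≤ q k →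
      ∀ N ≤ (q k) ^ (a k ^ e * 1), SB (pr w (n + 2)) N
        (2 * (K n * ((a k : ℝ) ^ ((e + 1) * (n + 2) - x) * (uu (q k) : ℝ) ^ 2) + (2 * n + 7))) := by
    intro k
    haveI : Fact (q k).Prime := ⟨hqp k⟩
    obtain ⟨c, hc⟩ := hK (q k) (hqs k)
    obtain ⟨w, hw, h⟩ := block (q k) e c
    refine ⟨w, hw, fun n hn => ?_⟩
    obtain ⟨h1, h2⟩ := hc n hn
    have h3 := h n _ h1 h2
    rw [← ha k] at h3
    exact h3
  choose w hw hwE using hblock
  set L : ℕ → ℕ := fun k => (q k) ^ (a k ^ e * 1) with hL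
  have hLpos : ∀ k, 0 < L k := fun k => pow_pos (Nat.pos_of_ne_zero (hqne k)) _
  obtain ⟨z, hz, hzE⟩ := concat_inf L hLpos w hw
  refine ⟨z, hz, fun d hd => ?_⟩
  obtain ⟨n, rfl⟩ : ∃ n, d = n + 2 := ⟨d - 2, by omega⟩
  obtain ⟨P, hP⟩ : ∃ P : ℕ, P = (e + 1) * (n + 2) - x := ⟨_, rfl⟩
  have hP1 : 1 ≤ P ∧ P + x = (e + 1) * (n + 2) := by
    have h1 : (e + 1) * (n + 2) = (e + 1) * n + 2 * (e + 1) := by ring
    have h2 : 0 ≤ (e + 1) * n := Nat.zero_le _
    rw [hP]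
    omega
  obtain ⟨p, hp⟩ : ∃ p : ℝ, p = ((n + 2 : ℕ) : ℝ) - x / (e + 1) := ⟨_, rfl⟩
  rw [← hp]
  have he0 : (0:ℝ) < (e:ℝ) + 1 := by positivity
  have hpP : ((e:ℝ) + 1) * p = P := by
    have h1 : ((P:ℝ)) + x = (e + 1) * (n + 2) := by exact_mod_cast hP1.2
    rw [hp]
    push_cast
    have h2 : ((e:ℝ) + 1) * ((n:ℝ) + 2 - x / (e + 1)) = (e + 1) * (n + 2) - x := by
      field_simp
    linarith
  have hp0 : 0 ≤ p := by
    have h1 : (0:ℝ) ≤ (e + 1) * p := by rw [hpP]; positivity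
    nlinarith
  set G : ℕ → ℝ := fun k => (a k : ℝ) ^ P * (uu (q k) : ℝ) ^ 2 with hG
  have hu1 : ∀ k, (1:ℝ) ≤ uu (q k) := fun k => by
    have : 1 ≤ uu (q k) := by unfold uu; omega
    exact_mod_cast this
  have ha1r : ∀ k, (1:ℝ) ≤ a k := fun k => by
    have := ha4 k
    exact_mod_cast (by omega : 1 ≤ a k)
  have hG1 : ∀ k, 1 ≤ G k := fun k =>
    one_le_mul_of_one_le_of_one_le (one_le_pow₀ (ha1r k)) (one_le_pow₀ (hu1 k))
  have hG2 : ∀ k, 2 * G k ≤ G (k + 1) := by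
    intro k
    have h1 : (4:ℝ) * a k ≤ a (k + 1) := by exact_mod_cast ha1 k
    have h2 : (uu (q k) : ℝ) ≤ uu (q (k + 1)) := by
      have : uu (q k) ≤ uu (q (k + 1)) := by
        unfold uu
        rw [← ha, ← ha]
        have : Nat.log 2 (a k) ≤ Nat.log 2 (a (k + 1)) := Nat.log_mono_right (by
          have := ha1 k; omega)
        omega
      exact_mod_cast this
    have h0 : (0:ℝ) ≤ a k := by linarith [ha1r k]
    have h3 : 2 * (a k : ℝ) ^ P ≤ (a (k + 1) : ℝ) ^ P := by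
      calc 2 * (a k : ℝ) ^ P ≤ 4 ^ P * (a k : ℝ) ^ P := by
            apply mul_le_mul_of_nonneg_right _ (by positivity)
            calc (2:ℝ) ≤ 4 ^ 1 := by norm_num
              _ ≤ 4 ^ P := pow_le_pow_right₀ (by norm_num) hP1.1
        _ = (4 * (a k : ℝ)) ^ P := by rw [mul_pow]
        _ ≤ _ := pow_le_pow_left₀ (by linarith) h1 P
    calc 2 * G k = (2 * (a k : ℝ) ^ P) * (uu (q k) : ℝ) ^ 2 := by rw [hG]; ring
      _ ≤ (a (k + 1) : ℝ) ^ P * (uu (q (k + 1)) : ℝ) ^ 2 := by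
          apply mul_le_mul h3 (pow_le_pow_left₀ (by linarith [hu1 k]) h2 2) (by positivity)
            (by positivity)
  set E : ℕ → ℝ := fun k => if K n ≤ q k then 2 * (K n * G k + (2 * n + 7)) else (L k : ℝ) with hE
  have hwE' : ∀ k, ∀ N ≤ L k, SB (pr (w k) (n + 2)) N (E k) := by
    intro k N hN
    by_cases h : K n ≤ q k
    · have h1 := hwE k n h N hN
      rw [← hP] at h1
      have h2 : E k = 2 * (K n * ((a k : ℝ) ^ P * (uu (q k) : ℝ) ^ 2) + (2 * n + 7)) := by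
        rw [hE]; simp only [if_pos h]; rfl
      rw [h2]
      exact h1
    · have h2 : E k = L k := by rw [hE]; simp only [if_neg h]
      rw [h2]
      intro y hy0 hy1
      refine (SB_triv _ N y hy0 hy1).trans ?_
      exact_mod_cast hN
  obtain ⟨A, hA⟩ : ∃ A : ℝ, A = 2 * K n + 2 * (2 * n + 7) + ∑ j ∈ range (K n), (L j : ℝ) := ⟨_, rfl⟩
  have hA0 : 0 < A := by rw [hA]; positivity
  have hEA : ∀ k, E k ≤ A * G k := by
    intro k
    have hg := hG1 k
    by_cases h : K n ≤ q k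
    · have h2 : E k = 2 * (K n * G k + (2 * n + 7)) := by
        rw [hE]; simp only [if_pos h]
      rw [h2]
      have h3 : (2 * K n + 2 * (2 * n + 7)) * G k ≤ A * G k := by
        apply mul_le_mul_of_nonneg_right _ (by linarith)
        rw [hA]
        have : (0:ℝ) ≤ ∑ j ∈ range (K n), (L j : ℝ) := by positivity
        linarith
      have h4 : (2 * (2 * (n:ℝ) + 7)) * 1 ≤ (2 * (2 * n + 7)) * G k :=
        mul_le_mul_of_nonneg_left hg (by positivity)
      linarith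
    · have h2 : E k = L k := by rw [hE]; simp only [if_neg h]
      rw [h2]
      have hk : k < K n := by
        have := hkq k
        omega
      have h3 : (L k : ℝ) ≤ ∑ j ∈ range (K n), (L j : ℝ) :=
        single_le_sum (f := fun j => (L j : ℝ)) (fun j _ => Nat.cast_nonneg _) (mem_range.2 hk)
      have h4 : (L k : ℝ) ≤ A := by
        rw [hA]
        have : (0:ℝ) ≤ 2 * K n + 2 * (2 * n + 7) := by positivity
        linarith
      calc (L k : ℝ) ≤ A * 1 := by linarith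
        _ ≤ A * G k := mul_le_mul_of_nonneg_left hg hA0.le
  have hsum : ∀ k, ∑ j ∈ range (k + 1), E j ≤ 2 * A * G k := by
    intro k
    induction k with
    | zero =>
      rw [zero_add, sum_range_one]
      have h1 := hEA 0
      have h2 : 0 ≤ A * G 0 := mul_nonneg hA0.le (by linarith [hG1 0])
      linarith
    | succ k ih =>
      rw [sum_range_succ]
      have h1 := hEA (k + 1)
      have h2 : A * (2 * G k) ≤ A * G (k + 1) := mul_le_mul_of_nonneg_left (hG2 k) hA0.le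
      linarith
  -- logarithms
  obtain ⟨b, hb⟩ : ∃ b : ℝ, b = Real.log (Real.log 3) := ⟨_, rfl⟩
  have hb0 : 0 < b := by rw [hb]; exact Real.log_pos one_lt_log3
  refine ⟨2 * A * (G 0 / b ^ 2 + 16 ^ P * 2 ^ p * (8 / b + 2) ^ 2), by
    have := hG1 0
    positivity, fun N hN => ?_⟩
  have hN3 : (3:ℝ) ≤ N := by exact_mod_cast hN
  have hN0 : (0:ℝ) < N := by linarith
  obtain ⟨s, hs⟩ : ∃ s : ℝ, s = Real.log N := ⟨_, rfl⟩
  have hs1 : 1 < s := by rw [hs]; exact one_lt_log3.trans_le (Real.log_le_log (by norm_num) hN3)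
  have hbs : b ≤ Real.log s := by
    rw [hb, hs]
    exact Real.log_le_log (by linarith [one_lt_log3]) (Real.log_le_log (by norm_num) hN3)
  rw [← hs]
  obtain ⟨ll, hll⟩ : ∃ ll : ℝ, ll = Real.log s := ⟨_, rfl⟩
  rw [← hll] at hbs ⊢
  have hsp : 1 ≤ s ^ p := Real.one_le_rpow hs1.le hp0
  have hll0 : 0 < ll := by linarith
  -- find the block
  set S : ℕ → ℕ := fun k => ∑ j ∈ range k, L j with hS
  have hSs : ∀ k, S (k + 1) = S k + L k := fun k => sum_range_succ _ _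
  have hSge : ∀ k, k ≤ S k := by
    intro k
    induction k with
    | zero => exact Nat.zero_le _
    | succ k ih => rw [hSs]; have := hLpos k; omega
  have hexk : ∃ k, N ≤ S (k + 1) := ⟨N, by have := hSge (N + 1); omega⟩
  obtain ⟨k, hk, hmin⟩ : ∃ k, N ≤ S (k + 1) ∧ ∀ m < k, ¬ N ≤ S (m + 1) :=
    ⟨Nat.find hexk, Nat.find_spec hexk, fun m hm => Nat.find_min hexk hm⟩
  have hX1 : 0 ≤ G 0 / b ^ 2 := by have := hG1 0; positivity
  have hX2 : 0 ≤ (16:ℝ) ^ P * 2 ^ p * (8 / b + 2) ^ 2 := by positivity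
  have hY : 0 ≤ s ^ p * ll ^ 2 := by positivity
  intro y hy0 hy1
  rcases k with _ | k
  · refine (hzE (n + 2) E hwE' 0 N (by simp) hk y hy0 hy1).trans ((hsum 0).trans ?_)
    have h1 : b ^ 2 ≤ ll ^ 2 := pow_le_pow_left₀ hb0.le hbs 2
    have h2 : G 0 ≤ G 0 / b ^ 2 * (s ^ p * ll ^ 2) := by
      have h3 : 1 ≤ s ^ p * (ll ^ 2 / b ^ 2) := by
        have h4 : 1 ≤ ll ^ 2 / b ^ 2 := by rw [one_le_div (by positivity)]; exact h1
        exact one_le_mul_of_one_le_of_one_le hsp h4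
      calc G 0 = G 0 * 1 := (mul_one _).symm
        _ ≤ G 0 * (s ^ p * (ll ^ 2 / b ^ 2)) :=
            mul_le_mul_of_nonneg_left h3 (by linarith [hG1 0])
        _ = _ := by ring
    calc 2 * A * G 0 ≤ 2 * A * (G 0 / b ^ 2 * (s ^ p * ll ^ 2)) :=
          mul_le_mul_of_nonneg_left h2 (by positivity)
      _ ≤ 2 * A * ((G 0 / b ^ 2 + 16 ^ P * 2 ^ p * (8 / b + 2) ^ 2) * (s ^ p * ll ^ 2)) := by
          apply mul_le_mul_of_nonneg_left _ (by positivity)
          apply mul_le_mul_of_nonneg_right _ hY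
          linarith
      _ = _ := by ring
  · have hlt : S (k + 1) < N := by
      have := hmin k (Nat.lt_succ_self k)
      omega
    refine (hzE (n + 2) E hwE' (k + 1) N hlt.le hk y hy0 hy1).trans ((hsum (k + 1)).trans ?_)
    have h3 : L k ≤ N := by
      have := hSs k
      omega
    -- the size of `a k`
    have h4 : (a k : ℝ) ^ (e + 1) ≤ 2 * s := by
      have h5 : Real.log (L k) ≤ s := by
        rw [hs]
        exact Real.log_le_log (by exact_mod_cast hLpos k) (by exact_mod_cast h3)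
      have h6 : Real.log (L k) = (a k : ℝ) ^ e * Real.log (q k) := by
        rw [hL]
        push_cast
        rw [Real.log_pow]
        push_cast
        ring
      have h7 : (a k : ℝ) * (1 / 2) ≤ Real.log (q k) := by
        have h8 : ((2:ℝ) ^ a k) ≤ q k := by exact_mod_cast h2a k
        have h9 := Real.log_le_log (by positivity) h8
        rw [Real.log_pow] at h9
        have h10 := Real.log_two_gt_d9
        have h11 := ha1r k
        nlinarith
      have h8 : (a k : ℝ) ^ e * ((a k : ℝ) * (1 / 2)) ≤ (a k : ℝ) ^ e * Real.log (q k) :=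
        mul_le_mul_of_nonneg_left h7 (by positivity)
      rw [← h6] at h8
      have h9 : (a k : ℝ) ^ (e + 1) = 2 * ((a k : ℝ) ^ e * ((a k : ℝ) * (1 / 2))) := by
        rw [pow_succ]; ring
      rw [h9]
      linarith
    have hak0 : (0:ℝ) ≤ a k := by linarith [ha1r k]
    have h5 : (a k : ℝ) ^ P ≤ 2 ^ p * s ^ p := by
      rw [← Real.mul_rpow (by norm_num) (by linarith)]
      have h6 : (a k : ℝ) ^ P = ((a k : ℝ) ^ (e + 1)) ^ p := by
        rw [← Real.rpow_natCast, ← Real.rpow_natCast, ← Real.rpow_mul hak0, ← hpP]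
        push_cast
        rfl
      rw [h6]
      exact Real.rpow_le_rpow (by positivity) h4 hp0
    have h6 : (a (k + 1) : ℝ) ≤ 16 * a k := by exact_mod_cast ha2 k
    have h7 : (a (k + 1) : ℝ) ^ P ≤ 16 ^ P * (2 ^ p * s ^ p) := by
      calc (a (k + 1) : ℝ) ^ P ≤ (16 * (a k : ℝ)) ^ P :=
            pow_le_pow_left₀ (by linarith [ha1r (k + 1)]) h6 P
        _ = 16 ^ P * (a k : ℝ) ^ P := mul_pow _ _ _
        _ ≤ _ := mul_le_mul_of_nonneg_left h5 (by positivity)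
    have h8 : (uu (q (k + 1)) : ℝ) ≤ (8 / b + 2) * ll := by
      have h9 : (uu (q (k + 1)) : ℝ) = Nat.log 2 (a (k + 1)) + 1 := by
        unfold uu
        rw [← ha]
        push_cast
        rfl
      have h10 := natlog_le (a (k + 1)) (by have := ha4 (k + 1); omega)
      have h11 : (a (k + 1) : ℝ) ≤ 32 * s := by
        have h12 : (a k : ℝ) ≤ (a k : ℝ) ^ (e + 1) := by
          calc (a k : ℝ) = (a k : ℝ) ^ 1 := (pow_one _).symm
            _ ≤ (a k : ℝ) ^ (e + 1) := pow_le_pow_right₀ (ha1r k) (by omega)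
        linarith
      have h12 : Real.log (a (k + 1)) ≤ 3.5 + ll := by
        have h13 := Real.log_le_log (by linarith [ha1r (k + 1)]) h11
        rw [Real.log_mul (by norm_num) (by linarith), ← hll] at h13
        have := log32
        linarith
      rw [h9]
      have h14 : 8 ≤ 8 / b * ll := by
        have : 1 ≤ ll / b := by rw [one_le_div hb0]; exact hbs
        calc (8:ℝ) = 8 * 1 := by ring
          _ ≤ 8 * (ll / b) := by linarith
          _ = _ := by ring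
      linarith
    have h9 : (uu (q (k + 1)) : ℝ) ^ 2 ≤ (8 / b + 2) ^ 2 * ll ^ 2 := by
      rw [← mul_pow]
      exact pow_le_pow_left₀ (by linarith [hu1 (k + 1)]) h8 2
    have h10 : G (k + 1) ≤ 16 ^ P * 2 ^ p * (8 / b + 2) ^ 2 * (s ^ p * ll ^ 2) := by
      calc G (k + 1) = (a (k + 1) : ℝ) ^ P * (uu (q (k + 1)) : ℝ) ^ 2 := rfl
        _ ≤ (16 ^ P * (2 ^ p * s ^ p)) * ((8 / b + 2) ^ 2 * ll ^ 2) :=
            mul_le_mul h7 h9 (sq_nonneg _) (by positivity)
        _ = _ := by ring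
    calc 2 * A * G (k + 1) ≤ 2 * A * (16 ^ P * 2 ^ p * (8 / b + 2) ^ 2 * (s ^ p * ll ^ 2)) :=
          mul_le_mul_of_nonneg_left h10 (by positivity)
      _ ≤ 2 * A * ((G 0 / b ^ 2 + 16 ^ P * 2 ^ p * (8 / b + 2) ^ 2) * (s ^ p * ll ^ 2)) := by
          apply mul_le_mul_of_nonneg_left _ (by positivity)
          apply mul_le_mul_of_nonneg_right _ hY
          linarith
      _ = _ := by ring

end Pool.Agent.KS6_54.SQ
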