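import Pool.Agent.KS6_54.SQ.Flag3
import Pool.Graph.R_pool_sql_team_seeded_3dad9d7b.NH94.W.Final

set_option autoImplicit false

/-!
# Nets in infinitely many coordinates
-/

namespace Pool.Agent.KS6_54.SQ

open Finset Pool.Agent.H470D4 Pool.Agent.Y258
open Pool.Agent.H935R2.PS (La uu)
open Pool.Agent.R843.SX (SuitG)
open Pool.Agent.Y590.SD (GB_mono La_pos uu_pos)
open Pool.Agent.NH94.W

/-- the size of the errors -/
noncomputable def Zb (q k : ℕ) : ℝ := ((La q : ℝ) ^ 5) ^ (k + 1) * (La q : ℝ) ^ k * (uu q : ℝ) ^ 2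

theorem Zb_nonneg (q k : ℕ) : 0 ≤ Zb q k := by unfold Zb; positivity

/-- the base: dimension three -/
theorem base : ∃ C : ℕ, ∀ (q : ℕ) [Fact q.Prime], SuitG q → C ≤ q →
    ∃ c : Flg q (La q ^ 5) 1 1, IsFlags c ∧ GB c (C * Zb q 1) := by
  obtain ⟨C, hC⟩ := Pool.Agent.NH43.Q.core
  refine ⟨2 * C + 8, fun q _ hs hq => ?_⟩
  have hL := La_pos (q := q) (by omega)
  have hn : 1 ≤ La q ^ 5 * 1 := by
    have : 1 ≤ La q ^ 5 := Nat.one_le_pow _ _ hL
    omega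
  obtain ⟨a, ha, hb⟩ := hC q hs (by omega) (La q ^ 5 * 1) hn
  refine ⟨c3 (La q ^ 5) 1 a, c3_flags _ _ a ha, GB_mono (c3_GB _ _ hn a ha _ hb) ?_⟩
  have hL' : (1:ℝ) ≤ La q := by exact_mod_cast hL
  have hu : (1:ℝ) ≤ uu q := by exact_mod_cast uu_pos q
  unfold Zb
  push_cast
  obtain ⟨L, hLL⟩ : ∃ L : ℝ, L = La q := ⟨_, rfl⟩
  obtain ⟨U, hU⟩ : ∃ U : ℝ, U = (uu q : ℝ) ^ 2 := ⟨_, rfl⟩
  have hU1 : 1 ≤ U := by rw [hU]; exact one_le_pow₀ hu
  rw [← hLL] at hL'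
  rw [← hLL, ← hU]
  have c0 : (0:ℝ) ≤ C := Nat.cast_nonneg _
  have h11 : (L ^ 5 * 1) * L ^ 6 ≤ L ^ 11 * U := by
    calc (L ^ 5 * 1) * L ^ 6 = L ^ 11 * 1 := by ring
      _ ≤ L ^ 11 * U := mul_le_mul_of_nonneg_left hU1 (by positivity)
  have h10 : (L ^ 5 * 1) ^ 2 ≤ L ^ 11 * U := by
    calc (L ^ 5 * 1) ^ 2 = L ^ 10 * 1 := by ring
      _ ≤ L ^ 11 * U := mul_le_mul (pow_le_pow_right₀ hL' (by norm_num)) hU1 (by norm_num)
          (by positivity)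
  have hZ : (L ^ 5) ^ (1 + 1) * L ^ 1 * U = L ^ 11 * U := by ring
  have hZ0 : 0 ≤ L ^ 11 * U := by positivity
  rw [hZ]
  calc C * ((L ^ 5 * 1) ^ 2 * L * U + L ^ 5 * 1 * L ^ 6) + 2 * (L ^ 5 * 1) ^ 2
      = C * (L ^ 11 * U + (L ^ 5 * 1) * L ^ 6) + 2 * (L ^ 5 * 1) ^ 2 := by ring
    _ ≤ C * (L ^ 11 * U + L ^ 11 * U) + 2 * (L ^ 11 * U) := by gcongr
    _ ≤ (2 * C + 8) * (L ^ 11 * U) := by nlinarith

/-- one more coordinate -/
theorem step (k : ℕ) (hk : 1 ≤ k) : ∃ C' : ℕ, ∀ (q : ℕ) [Fact q.Prime],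
      SuitG q → C' ≤ q → ∀ c : Flg q (La q ^ 5) 1 k, IsFlags c → ∀ E : ℝ, GB c E →
      ∃ ω : Pth q 1, IsFlags (newF c ω) ∧ GB (newF c ω) (E + C' * Zb q (k + 1)) := by
  obtain ⟨C, hC⟩ := w19_of g_w18 k
  refine ⟨C, ?_⟩
  intro q _ hs hCq c hc E hE
  obtain ⟨ω, hex, hb⟩ := hC q hs hCq c hc
  obtain ⟨h1, h2⟩ := Pool.Agent.Y141.SDC19.C19 k q (La q ^ 5) 1 c hc ω hex
  refine ⟨ω, h1, h2 E _ hE ?_ (fun X Y hX hY => (hb X Y hX hY).trans (le_of_eq ?_))⟩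
  · exact mul_nonneg (Nat.cast_nonneg _) (Zb_nonneg _ _)
  · rw [if_neg (by omega), zero_add]
    rfl

theorem Zb_step (q k : ℕ) (hL : 1 ≤ La q) : Zb q k ≤ Zb q (k + 1) := by
  have hL' : (1:ℝ) ≤ La q := by exact_mod_cast hL
  unfold Zb
  apply mul_le_mul_of_nonneg_right _ (sq_nonneg _)
  apply mul_le_mul (pow_le_pow_right₀ (one_le_pow₀ hL') (by omega))
    (pow_le_pow_right₀ hL' (by omega)) (by positivity) (by positivity)

/-- the constants -/
theorem consts : ∃ K : ℕ → ℕ, Monotone K ∧ (∀ (q : ℕ) [Fact q.Prime], SuitG q → K 0 ≤ q →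
      ∃ c : Flg q (La q ^ 5) 1 1, IsFlags c ∧ GB c (K 0 * Zb q 1)) ∧
    ∀ (k : ℕ) (q : ℕ) [Fact q.Prime], SuitG q → K (k + 1) ≤ q →
      ∀ c : Flg q (La q ^ 5) 1 (k + 1), IsFlags c → GB c (K k * Zb q (k + 1)) →
      ∃ ω : Pth q 1, IsFlags (newF c ω) ∧ GB (newF c ω) (K (k + 1) * Zb q (k + 1 + 1)) := by
  obtain ⟨C0, hC0⟩ := base
  choose C hC using fun k : ℕ => step (k + 1) (by omega)
  refine ⟨fun k => C0 + 8 + ∑ i ∈ range k, C i, ?_, ?_, ?_⟩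
  · intro a b hab
    exact Nat.add_le_add_left (sum_le_sum_of_subset (range_subset_range.2 hab)) _
  · intro q _ hs hq
    obtain ⟨c, hc, hg⟩ := hC0 q hs (by simp at hq; omega)
    refine ⟨c, hc, GB_mono hg ?_⟩
    apply mul_le_mul_of_nonneg_right _ (Zb_nonneg _ _)
    push_cast
    simp
  · intro k q _ hs hq c hc hg
    have hq1 : C0 + 8 + ∑ i ∈ range (k + 1), C i ≤ q := hq
    have hq' : C k ≤ q ∧ 8 ≤ q := by
      rw [sum_range_succ] at hq1
      omega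
    obtain ⟨ω, h1, h2⟩ := hC k q hs hq'.1 c hc _ hg
    refine ⟨ω, h1, GB_mono h2 ?_⟩
    have hZ := Zb_step q (k + 1) (La_pos (q := q) (by omega))
    push_cast
    rw [sum_range_succ]
    have h0 : (0:ℝ) ≤ C0 + 8 + ∑ i ∈ range k, (C i : ℝ) := by positivity
    calc _ ≤ (C0 + 8 + ∑ i ∈ range k, (C i : ℝ)) * Zb q (k + 1 + 1) +
          C k * Zb q (k + 1 + 1) := by
          apply add_le_add_left
          exact mul_le_mul_of_nonneg_left hZ h0
      _ = _ := by ring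

/-- **The tower.** Digit functionals of infinitely many coordinates. -/
theorem tower : ∃ K : ℕ → ℕ, ∀ (q : ℕ) [Fact q.Prime], SuitG q →
    ∃ c : ℕ → ℕ → (Vec q (La q ^ 5) 1 →ₗ[ZMod q] ZMod q), ∀ n : ℕ, K n ≤ q →
      IsFlags (n := n + 1) (fun a => c a) ∧
      GB (n := n + 1) (fun a => c a) (K n * Zb q (n + 1)) := by
  classical
  obtain ⟨K, hmono, h0, hs⟩ := consts
  refine ⟨K, fun q _ hq => ?_⟩
  -- the good flags
  let P : (n : ℕ) → Flg q (La q ^ 5) 1 (n + 1) → Prop := fun n c =>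
    K n ≤ q → IsFlags c ∧ GB c (K n * Zb q (n + 1))
  have hb : ∃ c, P 0 c := by
    by_cases h : K 0 ≤ q
    · obtain ⟨c, hc⟩ := h0 q hq h
      exact ⟨c, fun _ => hc⟩
    · exact ⟨fun _ _ => 0, fun h' => absurd h' h⟩
  have hstep : ∀ n (c : Flg q (La q ^ 5) 1 (n + 1)), P n c → ∃ ω : Pth q 1, P (n + 1) (newF c ω) := by
    intro n c hc
    by_cases h : K (n + 1) ≤ q
    · obtain ⟨h1, h2⟩ := hc ((hmono (Nat.le_succ n)).trans h)
      obtain ⟨ω, hω⟩ := hs n q hq h c h1 h2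
      exact ⟨ω, fun _ => hω⟩
    · exact ⟨fun _ _ => 0, fun h' => absurd h' h⟩
  let f : (n : ℕ) → {c : Flg q (La q ^ 5) 1 (n + 1) // P n c} := fun n =>
    Nat.rec ⟨hb.choose, hb.choose_spec⟩
      (fun n c => ⟨newF c.1 (hstep n c.1 c.2).choose, (hstep n c.1 c.2).choose_spec⟩) n
  have hf : ∀ n (b : Fin (n + 1 + 2)) (j : ℕ), (f (n + 1)).1 (Fin.castSucc b) j = (f n).1 b j := by
    intro n b j
    show newF (f n).1 _ (Fin.castSucc b) j = _
    unfold newF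
    rw [Fin.lastCases_castSucc]
  let c : ℕ → ℕ → (Vec q (La q ^ 5) 1 →ₗ[ZMod q] ZMod q) := fun a j =>
    (f a).1 ⟨a, by omega⟩ j
  have hc : ∀ n (a : ℕ) (ha : a < n + 1 + 2) (j : ℕ), (f n).1 ⟨a, ha⟩ j = c a j := by
    intro n
    induction n with
    | zero =>
      intro a ha j
      have h1 : ∀ m (hm : a < m + 1 + 2), (f m).1 ⟨a, hm⟩ j = (f 0).1 ⟨a, ha⟩ j := by
        intro m
        induction m with
        | zero => intro hm; rfl
        | succ m ih =>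
          intro hm
          rw [← ih (by omega)]
          exact hf m ⟨a, by omega⟩ j
      exact (h1 a (by omega)).symm
    | succ n ih =>
      intro a ha j
      by_cases h : a < n + 1 + 2
      · rw [← ih a h j]
        exact hf n ⟨a, h⟩ j
      · -- the new coordinate: `a = n + 3`
        have h1 : ∀ m, n + 1 ≤ m → ∀ (hm : a < m + 1 + 2), (f m).1 ⟨a, hm⟩ j =
            (f (n + 1)).1 ⟨a, ha⟩ j := by
          intro m hnm
          induction m, hnm using Nat.le_induction with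
          | base => intro hm; rfl
          | succ m hnm ihm =>
            intro hm
            rw [← ihm (by omega)]
            exact hf m ⟨a, by omega⟩ j
        exact (h1 a (by omega) (by omega)).symm
  refine ⟨c, fun n hn => ?_⟩
  have e : (fun a : Fin (n + 1 + 2) => c a) = (f n).1 := by
    funext a j
    exact (hc n a a.2 j).symm
  have h := (f n).2 hn
  rw [← e] at h
  exact h

end Pool.Agent.KS6_54.SQ
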